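import Pool.Agent.H361R2.PP.Asm4
import Pool.Agent.H361R2.PP.Asm5

/-!
# Signs of the determinants of consecutive blocks of four primes

With `p_k` the `k`-th prime (`p_1 = 2`) and `a(n) = p_{4n-3} p_{4n} - p_{4n-2} p_{4n-1}`, a positive
proportion of the `n` have `a(n) > 0` and a positive proportion have `a(n) < 0`; so the ratio `R(N)`
stays between two positive constants.

Proof.  A positive proportion of the indices start a run of six gaps between primes, each at least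
three times its predecessor.  Such a run contains a complete block of four primes whose gaps
`g₁, g₂, g₃` have `g₂ ≥ 3 g₁`, `g₃ ≥ 3 g₂`, and `a(n) = p (g₃ - g₁) - g₁ (g₁ + g₂) > 0` by the
postulate of Bertrand.  Similarly for the runs of six gaps, each at least three times its successor.
-/

set_option autoImplicit false

namespace Pool.Agent.Results.MP_101e03_nt.RatioBounded

open Finset

/-- the `k`-th prime, `p 1 = 2` -/
noncomputable def p (k : ℕ) : ℤ := Nat.nth Nat.Prime (k - 1)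

/-- the determinant of the `n`-th block -/
noncomputable def a (n : ℕ) : ℤ := p (4 * n - 3) * p (4 * n) - p (4 * n - 2) * p (4 * n - 1)

/-- the number of `n ≤ N` with `a n > 0` -/
noncomputable def P (N : ℕ) : ℕ := {n : ℕ | 1 ≤ n ∧ n ≤ N ∧ 0 < a n}.ncard

/-- the number of `n ≤ N` with `a n < 0` -/
noncomputable def Neg (N : ℕ) : ℕ := {n : ℕ | 1 ≤ n ∧ n ≤ N ∧ a n < 0}.ncard

/-- primes with index starting from `0` -/
noncomputable def q (j : ℕ) : ℝ := (Nat.nth Nat.Prime j : ℝ)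

theorem q_lt (j : ℕ) : q j < q (j + 1) := by
  unfold q
  exact_mod_cast Nat.nth_strictMono Nat.infinite_setOfPred_prime (Nat.lt_succ_self j)

theorem q_pos (j : ℕ) : 0 < q j := by
  unfold q
  exact_mod_cast (Nat.prime_nth_prime j).pos

theorem q_succ_le (j : ℕ) : q (j + 1) ≤ 2 * q j := by
  obtain ⟨r, hr, h1, h2⟩ := Nat.exists_prime_lt_and_le_two_mul (Nat.nth Nat.Prime j)
    (Nat.prime_nth_prime j).ne_zero
  have h3 : Nat.nth Nat.Prime (j + 1) ≤ r := by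
    have h4 : Nat.nth Nat.Prime (Nat.count Nat.Prime r) = r := Nat.nth_count hr
    rw [← h4] at h1 ⊢
    have h5 : j < Nat.count Nat.Prime r :=
      (Nat.nth_strictMono Nat.infinite_setOfPred_prime).lt_iff_lt.1 h1
    exact (Nat.nth_strictMono Nat.infinite_setOfPred_prime).monotone h5
  unfold q
  exact_mod_cast h3.trans h2

theorem a_eq (m : ℕ) : (a (m + 1) : ℝ) =
    q (4 * m) * q (4 * m + 3) - q (4 * m + 1) * q (4 * m + 2) := by
  unfold a p q
  have e1 : 4 * (m + 1) - 3 - 1 = 4 * m := by omega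
  have e2 : 4 * (m + 1) - 1 = 4 * m + 3 := by omega
  have e3 : 4 * (m + 1) - 2 - 1 = 4 * m + 1 := by omega
  have e4 : 4 * (m + 1) - 1 - 1 = 4 * m + 2 := by omega
  rw [e1, e4, e3, e2]
  push_cast
  ring

theorem a_pos {m : ℕ} (h1 : 3 * (q (4 * m + 1) - q (4 * m)) ≤ q (4 * m + 2) - q (4 * m + 1))
    (h2 : 3 * (q (4 * m + 2) - q (4 * m + 1)) ≤ q (4 * m + 3) - q (4 * m + 2)) :
    0 < a (m + 1) := by
  have h : (0 : ℝ) < (a (m + 1) : ℝ) := by
    rw [a_eq]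
    have hp := q_pos (4 * m)
    have l1 := q_lt (4 * m)
    have l2 := q_lt (4 * m + 1)
    have b1 := q_succ_le (4 * m)
    have b2 := q_succ_le (4 * m + 1)
    obtain ⟨x, hx⟩ : ∃ x, x = q (4 * m) := ⟨_, rfl⟩
    obtain ⟨g1, hg1⟩ : ∃ g1, g1 = q (4 * m + 1) - q (4 * m) := ⟨_, rfl⟩
    obtain ⟨g2, hg2⟩ : ∃ g2, g2 = q (4 * m + 2) - q (4 * m + 1) := ⟨_, rfl⟩
    obtain ⟨g3, hg3⟩ : ∃ g3, g3 = q (4 * m + 3) - q (4 * m + 2) := ⟨_, rfl⟩
    have e1 : q (4 * m + 1) = x + g1 := by rw [hx, hg1]; ring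
    have e2 : q (4 * m + 2) = x + g1 + g2 := by rw [hx, hg1, hg2]; ring
    have e3 : q (4 * m + 3) = x + g1 + g2 + g3 := by rw [hx, hg1, hg2, hg3]; ring
    rw [← hg1, ← hg2] at h1
    rw [← hg2, ← hg3] at h2
    have hg1p : 0 < g1 := by rw [hg1]; linarith
    have hx0 : 0 < x := by rw [hx]; exact hp
    have hb : g1 + g2 ≤ 3 * x := by
      have h3 : q (4 * m + 1 + 1) = x + g1 + g2 := e2
      rw [h3] at b2
      rw [e1, ← hx] at b1
      rw [e1] at b2
      linarith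
    rw [e3, e2, e1, ← hx]
    have h4 : x * (x + g1 + g2 + g3) - (x + g1) * (x + g1 + g2) =
        x * (g3 - g1) - g1 * (g1 + g2) := by ring
    rw [h4]
    have h5 : 8 * g1 ≤ g3 - g1 := by linarith
    have h6 : x * (8 * g1) ≤ x * (g3 - g1) := mul_le_mul_of_nonneg_left h5 hx0.le
    have h7 : g1 * (g1 + g2) ≤ g1 * (3 * x) := mul_le_mul_of_nonneg_left hb hg1p.le
    have h8 : 0 < x * g1 := mul_pos hx0 hg1p
    nlinarith
  exact_mod_cast h

theorem a_neg {m : ℕ} (h1 : 3 * (q (4 * m + 2) - q (4 * m + 1)) ≤ q (4 * m + 1) - q (4 * m))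
    (h2 : 3 * (q (4 * m + 3) - q (4 * m + 2)) ≤ q (4 * m + 2) - q (4 * m + 1)) :
    a (m + 1) < 0 := by
  have h : (a (m + 1) : ℝ) < 0 := by
    rw [a_eq]
    have hp := q_pos (4 * m)
    have l1 := q_lt (4 * m)
    have l2 : q (4 * m + 1) < q (4 * m + 2) := q_lt (4 * m + 1)
    obtain ⟨x, hx⟩ : ∃ x, x = q (4 * m) := ⟨_, rfl⟩
    obtain ⟨g1, hg1⟩ : ∃ g1, g1 = q (4 * m + 1) - q (4 * m) := ⟨_, rfl⟩
    obtain ⟨g2, hg2⟩ : ∃ g2, g2 = q (4 * m + 2) - q (4 * m + 1) := ⟨_, rfl⟩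
    obtain ⟨g3, hg3⟩ : ∃ g3, g3 = q (4 * m + 3) - q (4 * m + 2) := ⟨_, rfl⟩
    have e1 : q (4 * m + 1) = x + g1 := by rw [hx, hg1]; ring
    have e2 : q (4 * m + 2) = x + g1 + g2 := by rw [hx, hg1, hg2]; ring
    have e3 : q (4 * m + 3) = x + g1 + g2 + g3 := by rw [hx, hg1, hg2, hg3]; ring
    rw [← hg1, ← hg2] at h1
    rw [← hg2, ← hg3] at h2
    have hg1p : 0 < g1 := by rw [hg1]; linarith
    have hg2p : 0 < g2 := by rw [hg2]; linarith
    have hx0 : 0 < x := by rw [hx]; exact hp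
    rw [e3, e2, e1, ← hx]
    have h4 : x * (x + g1 + g2 + g3) - (x + g1) * (x + g1 + g2) =
        x * (g3 - g1) - g1 * (g1 + g2) := by ring
    rw [h4]
    have h5 : g3 - g1 ≤ 0 := by linarith
    have h6 : x * (g3 - g1) ≤ 0 := mul_nonpos_of_nonneg_of_nonpos hx0.le h5
    have h7 : 0 < g1 * (g1 + g2) := mul_pos hg1p (by linarith)
    linarith
  exact_mod_cast h

/-- from indices to blocks -/
theorem transfer (S : ℕ → Prop) [DecidablePred S] (T : ℕ → Prop) (hST : ∀ j, S j → T ((j + 3) / 4 + 1))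
    {c : ℝ} (hc : 0 < c) {N₀ : ℕ}
    (h : ∀ N : ℕ, N₀ ≤ N → c * N ≤ (((range N).filter S).card : ℝ)) :
    ∀ N : ℕ, N₀ + 2 ≤ N → c / 2 * N ≤ ({n : ℕ | 1 ≤ n ∧ n ≤ N ∧ T n}.ncard : ℝ) := by
  classical
  intro N hN
  have h1 := h (4 * (N - 1)) (by omega)
  have h2 : ((range (4 * (N - 1))).filter S).card ≤
      4 * (((range (4 * (N - 1))).filter S).image (fun j => (j + 3) / 4 + 1)).card := by
    apply card_le_mul_card_image
    intro y _
    have h3 : (((range (4 * (N - 1))).filter S).filter (fun j => (j + 3) / 4 + 1 = y)) ⊆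
        Ico (4 * (y - 1) - 3) (4 * (y - 1) + 1) := by
      intro j hj
      rw [mem_filter] at hj
      rw [mem_Ico]
      have := hj.2
      constructor <;> omega
    refine (card_le_card h3).trans ?_
    rw [Nat.card_Ico]
    omega
  have h4 : (((range (4 * (N - 1))).filter S).image (fun j => (j + 3) / 4 + 1)).card ≤
      {n : ℕ | 1 ≤ n ∧ n ≤ N ∧ T n}.ncard := by
    rw [← Set.ncard_coe_finset]
    apply Set.ncard_le_ncard
    · intro y hy
      rw [coe_image, Set.mem_image] at hy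
      obtain ⟨j, hj, rfl⟩ := hy
      rw [mem_coe, mem_filter, mem_range] at hj
      exact ⟨by omega, by omega, hST j hj.2⟩
    · exact (Set.finite_Icc 1 N).subset fun n hn => ⟨hn.1, hn.2.1⟩
  have h5 : (((range (4 * (N - 1))).filter S).card : ℝ) ≤
      4 * ({n : ℕ | 1 ≤ n ∧ n ≤ N ∧ T n}.ncard : ℝ) := by
    exact_mod_cast h2.trans (Nat.mul_le_mul_left 4 h4)
  have h6 : ((4 * (N - 1) : ℕ) : ℝ) = 4 * ((N : ℝ) - 1) := by
    rw [Nat.cast_mul, Nat.cast_sub (by omega)]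
    norm_num
  rw [h6] at h1
  have hN2 : (2 : ℝ) ≤ N := by exact_mod_cast (by omega : 2 ≤ N)
  nlinarith

theorem card_le (T : ℕ → Prop) (N : ℕ) : {n : ℕ | 1 ≤ n ∧ n ≤ N ∧ T n}.ncard ≤ N := by
  have h1 : {n : ℕ | 1 ≤ n ∧ n ≤ N ∧ T n} ⊆ (Icc 1 N : Finset ℕ) := by
    intro n hn
    rw [coe_Icc]
    exact ⟨hn.1, hn.2.1⟩
  have h2 := Set.ncard_le_ncard h1 (finite_toSet _)
  rwa [Set.ncard_coe_finset, Nat.card_Icc, Nat.add_sub_cancel] at h2

open Classical in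
theorem pos_many : ∃ c : ℝ, 0 < c ∧ ∃ N₀ : ℕ, ∀ N : ℕ, N₀ ≤ N → c * N ≤ (P N : ℝ) := by
  obtain ⟨c, hc, N₀, h⟩ := Pool.Agent.H361R2.PP.runInc 3 5
  refine ⟨c / 2, by positivity, N₀ + 2, transfer _ (fun n => 0 < a n) (fun j hj => ?_) hc h⟩
  have hs := hj.2
  obtain ⟨s, hs4, hs1⟩ : ∃ s, s < 4 ∧ 4 * ((j + 3) / 4) = j + s :=
    ⟨4 * ((j + 3) / 4) - j, by omega, by omega⟩
  apply a_pos
  · have := hs s (by omega)
    unfold q
    rw [hs1]
    exact this
  · have := hs (s + 1) (by omega)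
    unfold q
    rw [hs1]
    exact this

open Classical in
theorem neg_many : ∃ c : ℝ, 0 < c ∧ ∃ N₀ : ℕ, ∀ N : ℕ, N₀ ≤ N → c * N ≤ (Neg N : ℝ) := by
  obtain ⟨c, hc, N₀, h⟩ := Pool.Agent.H361R2.PP.runDec 3 5
  refine ⟨c / 2, by positivity, N₀ + 2, transfer _ (fun n => a n < 0) (fun j hj => ?_) hc h⟩
  have hs := hj.2
  obtain ⟨s, hs4, hs1⟩ : ∃ s, s < 4 ∧ 4 * ((j + 3) / 4) = j + s :=
    ⟨4 * ((j + 3) / 4) - j, by omega, by omega⟩
  apply a_neg
  · have := hs s (by omega)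
    unfold q
    rw [hs1]
    exact this
  · have := hs (s + 1) (by omega)
    unfold q
    rw [hs1]
    exact this

/-- A positive proportion of the determinants is positive, a positive proportion is negative, and
the ratio stays between two positive constants. -/
theorem result : ∃ c : ℝ, 0 < c ∧ ∃ N₀ : ℕ, ∀ N : ℕ, N₀ ≤ N →
    c * N ≤ (P N : ℝ) ∧ c * N ≤ (Neg N : ℝ) ∧
    c ≤ (P N : ℝ) / Neg N ∧ (P N : ℝ) / Neg N ≤ 1 / c := by
  obtain ⟨c1, hc1, N1, h1⟩ := pos_many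
  obtain ⟨c2, hc2, N2, h2⟩ := neg_many
  obtain ⟨c, hc⟩ : ∃ c, c = min c1 c2 := ⟨_, rfl⟩
  have hc0 : 0 < c := by rw [hc]; exact lt_min hc1 hc2
  refine ⟨c, hc0, N1 + N2 + 1, fun N hN => ?_⟩
  have hN0 : (0 : ℝ) < N := by exact_mod_cast (by omega : 0 < N)
  have a1 : c * N ≤ (P N : ℝ) := (mul_le_mul_of_nonneg_right (hc ▸ min_le_left _ _) hN0.le).trans
    (h1 N (by omega))
  have a2 : c * N ≤ (Neg N : ℝ) := (mul_le_mul_of_nonneg_right (hc ▸ min_le_right _ _) hN0.le).trans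
    (h2 N (by omega))
  have a3 : (P N : ℝ) ≤ N := by exact_mod_cast card_le _ N
  have a4 : (Neg N : ℝ) ≤ N := by exact_mod_cast card_le _ N
  have a5 : 0 < (Neg N : ℝ) := lt_of_lt_of_le (by positivity) a2
  refine ⟨a1, a2, ?_, ?_⟩
  · rw [le_div_iff₀ a5]
    exact (mul_le_mul_of_nonneg_left a4 hc0.le).trans a1
  · rw [div_le_div_iff₀ a5 hc0]
    nlinarith

end Pool.Agent.Results.MP_101e03_nt.RatioBounded
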